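import Mathlib

/-!
# Generators of `Γ₀(15)` and homomorphisms to the reals
-/

set_option autoImplicit false

namespace Pool.Agent.Run7.h741.P15

/-- `h a b c d` is a homomorphism on the matrices `(a, b; 15 c, d)` -/
def Hm (h : ℤ → ℤ → ℤ → ℤ → ℝ) : Prop := ∀ a b c d a' b' c' d' : ℤ, a * d - b * (15 * c) = 1 →
  a' * d' - b' * (15 * c') = 1 →
  h (a * a' + b * (15 * c')) (a * b' + b * d') (c * a' + d * c') (15 * c * b' + d * d') =
    h a b c d + h a' b' c' d'

section

variable {h : ℤ → ℤ → ℤ → ℤ → ℝ} (hm : Hm h)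

include hm

lemma Hm.one : h 1 0 0 1 = 0 := by
  have := hm 1 0 0 1 1 0 0 1 (by norm_num) (by norm_num)
  norm_num at this
  exact this

lemma Hm.neg_one : h (-1) 0 0 (-1) = 0 := by
  have h1 := hm (-1) 0 0 (-1) (-1) 0 0 (-1) (by norm_num) (by norm_num)
  have h2 := Hm.one hm
  norm_num at h1
  rw [h2] at h1
  linarith

lemma Hm.neg {a b c d : ℤ} (hd : a * d - b * (15 * c) = 1) : h (-a) (-b) (-c) (-d) = h a b c d := by
  have h1 := hm (-1) 0 0 (-1) a b c d (by norm_num) hd
  rw [Hm.neg_one hm] at h1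
  rw [show -1 * a + 0 * (15 * c) = -a by ring, show -1 * b + 0 * d = -b by ring,
    show 0 * a + -1 * c = -c by ring, show 15 * 0 * b + -1 * d = -d by ring] at h1
  linarith

lemma Hm.inv {a b c d : ℤ} (hd : a * d - b * (15 * c) = 1) : h d (-b) (-c) a = - h a b c d := by
  have h1 := hm a b c d d (-b) (-c) a hd (by linarith)
  rw [show a * d + b * (15 * -c) = 1 by linarith, show a * -b + b * a = 0 by ring,
    show c * d + d * -c = 0 by ring, show 15 * c * -b + d * a = 1 by linarith, Hm.one hm] at h1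
  linarith

lemma Hm.T (hT : h 1 1 0 1 = 0) (m : ℤ) : h 1 m 0 1 = 0 := by
  have key : ∀ k : ℕ, h 1 k 0 1 = 0 := by
    intro k
    induction k with
    | zero => exact_mod_cast Hm.one hm
    | succ k ih =>
      have h1 := hm 1 k 0 1 1 1 0 1 (by norm_num) (by norm_num)
      rw [ih, hT, show (1 : ℤ) * 1 + k * (15 * 0) = 1 by ring,
        show (1 : ℤ) * 1 + (k : ℤ) * 1 = ((k + 1 : ℕ) : ℤ) by push_cast; ring,
        show (0 : ℤ) * 1 + 1 * 0 = 0 by ring, show (15 : ℤ) * 0 * 1 + 1 * 1 = 1 by ring] at h1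
      linarith
  rcases Int.eq_nat_or_neg m with ⟨k, rfl | rfl⟩
  · exact key k
  · have h1 := Hm.inv hm (a := 1) (b := k) (c := 0) (d := 1) (by norm_num)
    rw [key k, neg_zero, neg_zero] at h1
    exact h1

lemma Hm.T_mul (hT : h 1 1 0 1 = 0) (m : ℤ) {a b c d : ℤ} (hd : a * d - b * (15 * c) = 1) :
    h (a + m * (15 * c)) (b + m * d) c d = h a b c d := by
  have h1 := hm 1 m 0 1 a b c d (by norm_num) hd
  rw [Hm.T hm hT, show 1 * a + m * (15 * c) = a + m * (15 * c) by ring,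
    show 1 * b + m * d = b + m * d by ring, show 0 * a + 1 * c = c by ring,
    show 15 * 0 * b + 1 * d = d by ring] at h1
  linarith

lemma Hm.mul_T (hT : h 1 1 0 1 = 0) (m : ℤ) {a b c d : ℤ} (hd : a * d - b * (15 * c) = 1) :
    h a (a * m + b) c (15 * c * m + d) = h a b c d := by
  have h1 := hm a b c d 1 m 0 1 hd (by norm_num)
  rw [Hm.T hm hT, show a * 1 + b * (15 * 0) = a by ring,
    show a * m + b * 1 = a * m + b by ring, show c * 1 + d * 0 = c by ring,
    show 15 * c * m + d * 1 = 15 * c * m + d by ring] at h1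
  linarith

end

/-- the generators -/
structure Gens (h : ℤ → ℤ → ℤ → ℤ → ℝ) : Prop where
  hm : Hm h
  T : h 1 1 0 1 = 0
  g1 : h (-1) 0 1 (-1) = 0
  g2 : h 7 (-1) 1 (-2) = 0
  g4 : h (-4) 1 1 (-4) = 0
  g7 : h 2 (-1) 1 (-7) = 0
  g8 : h 13 (-7) 1 (-8) = 0
  g11 : h 4 (-3) 1 (-11) = 0
  g13 : h 8 (-7) 1 (-13) = 0
  g14 : h 1 (-1) 1 (-14) = 0
  k11 : h (-11) 4 2 (-11) = 0
  k19 : h (-19) 12 2 (-19) = 0

/-- a homomorphism which vanishes on the generators is zero -/
theorem Gens.zero {h : ℤ → ℤ → ℤ → ℤ → ℝ} (G : Gens h) :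
    ∀ (n : ℕ) (a b c d : ℤ), c.natAbs = n → a * d - b * (15 * c) = 1 → h a b c d = 0 := by
  intro n
  induction n using Nat.strong_induction_on with
  | _ n ih =>
  -- positive `c`
  have pos : ∀ a b c d : ℤ, c.natAbs = n → 0 < c → a * d - b * (15 * c) = 1 → h a b c d = 0 := by
    intro a b c d hn hc hd
    -- reduce the first entry
    obtain ⟨m, hm0, hm1⟩ : ∃ m : ℤ, 0 ≤ a + m * (15 * c) ∧ a + m * (15 * c) < 15 * c := by
      refine ⟨-(a / (15 * c)), ?_, ?_⟩
      · have := Int.emod_nonneg a (by positivity : (15 * c) ≠ 0)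
        rw [Int.emod_def] at this; linarith
      · have := Int.emod_lt_of_pos a (by positivity : 0 < 15 * c)
        rw [Int.emod_def] at this; linarith
    rw [← Hm.T_mul G.hm G.T m hd]
    have hd' : (a + m * (15 * c)) * d - (b + m * d) * (15 * c) = 1 := by linarith
    generalize a + m * (15 * c) = s at hm0 hm1 hd' ⊢
    generalize b + m * d = t at hd' ⊢
    have n3 : ¬ (3 : ℤ) ∣ s := by
      rintro ⟨u, hu⟩
      rw [hu] at hd'
      have : (3 : ℤ) ∣ 1 := ⟨u * d - t * (5 * c), by linarith⟩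
      omega
    have n5 : ¬ (5 : ℤ) ∣ s := by
      rintro ⟨u, hu⟩
      rw [hu] at hd'
      have : (5 : ℤ) ∣ 1 := ⟨u * d - t * (3 * c), by linarith⟩
      omega
    have step : ∀ α β γ δ : ℤ, α * δ - β * (15 * γ) = 1 → h α β γ δ = 0 →
        |γ * s + δ * c| < c → h s t c d = 0 := by
      intro α β γ δ h1 h2 h3
      have h4 := G.hm α β γ δ s t c d h1 hd'
      have h5 : (γ * s + δ * c).natAbs < n := by
        rw [← hn]
        have : |γ * s + δ * c| < |c| := lt_of_lt_of_le h3 (le_abs_self c)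
        zify
        exact this
      have h6 := ih _ h5 (α * s + β * (15 * c)) (α * t + β * d) (γ * s + δ * c)
        (15 * γ * t + δ * d) rfl (by linear_combination (α * δ - β * (15 * γ)) * hd' + h1)
      rw [h6, h2] at h4
      linarith
    have d0 : s ≠ 0 := by rintro rfl; exact n3 (dvd_zero _)
    have d3 : s ≠ 3 * c := fun h => n3 ⟨c, h⟩
    have d5 : s ≠ 5 * c := fun h => n5 ⟨c, h⟩
    have d6 : s ≠ 6 * c := fun h => n3 ⟨2 * c, by linarith⟩
    have d9 : s ≠ 9 * c := fun h => n3 ⟨3 * c, by linarith⟩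
    have d10 : s ≠ 10 * c := fun h => n5 ⟨2 * c, by linarith⟩
    have d12 : s ≠ 12 * c := fun h => n3 ⟨4 * c, by linarith⟩
    have hs0 : 0 < s := lt_of_le_of_ne hm0 (Ne.symm d0)
    by_cases c1 : s < 2 * c
    · exact step _ _ _ _ (by norm_num) G.g1 (abs_lt.2 ⟨by linarith, by linarith⟩)
    by_cases c2 : s < 3 * c
    · exact step _ _ _ _ (by norm_num) G.g2 (abs_lt.2 ⟨by linarith, by linarith⟩)
    by_cases c4 : s < 5 * c
    · have : 3 * c < s := lt_of_le_of_ne (not_lt.1 c2) (Ne.symm d3)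
      exact step _ _ _ _ (by norm_num) G.g4 (abs_lt.2 ⟨by linarith, by linarith⟩)
    by_cases c5 : s < 6 * c
    · have : 5 * c < s := lt_of_le_of_ne (not_lt.1 c4) (Ne.symm d5)
      exact step _ _ _ _ (by norm_num) G.k11 (abs_lt.2 ⟨by linarith, by linarith⟩)
    by_cases c7 : s < 8 * c
    · have : 6 * c < s := lt_of_le_of_ne (not_lt.1 c5) (Ne.symm d6)
      exact step _ _ _ _ (by norm_num) G.g7 (abs_lt.2 ⟨by linarith, by linarith⟩)
    by_cases c8 : s < 9 * c
    · exact step _ _ _ _ (by norm_num) G.g8 (abs_lt.2 ⟨by linarith, by linarith⟩)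
    by_cases c9 : s < 10 * c
    · have : 9 * c < s := lt_of_le_of_ne (not_lt.1 c8) (Ne.symm d9)
      exact step _ _ _ _ (by norm_num) G.k19 (abs_lt.2 ⟨by linarith, by linarith⟩)
    by_cases c11 : s < 12 * c
    · have : 10 * c < s := lt_of_le_of_ne (not_lt.1 c9) (Ne.symm d10)
      exact step _ _ _ _ (by norm_num) G.g11 (abs_lt.2 ⟨by linarith, by linarith⟩)
    by_cases c13 : s < 14 * c
    · have : 12 * c < s := lt_of_le_of_ne (not_lt.1 c11) (Ne.symm d12)
      exact step _ _ _ _ (by norm_num) G.g13 (abs_lt.2 ⟨by linarith, by linarith⟩)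
    · exact step _ _ _ _ (by norm_num) G.g14 (abs_lt.2 ⟨by linarith, by linarith⟩)
  intro a b c d hn hd
  rcases lt_trichotomy c 0 with hc | rfl | hc
  · rw [← Hm.neg G.hm hd]
    exact pos _ _ _ _ (by rw [Int.natAbs_neg, hn]) (by linarith) (by linarith)
  · have h1 : a * d = 1 := by linarith
    rcases Int.eq_one_or_neg_one_of_mul_eq_one h1 with rfl | rfl
    · have : d = 1 := by linarith
      subst this
      exact Hm.T G.hm G.T b
    · have : d = -1 := by linarith
      subst this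
      have h2 := Hm.neg G.hm (a := 1) (b := -b) (c := 0) (d := 1) (by norm_num)
      rw [neg_neg, neg_zero, Hm.T G.hm G.T] at h2
      exact h2
  · exact pos _ _ _ _ hn hc hd

/-- the data which determine an odd homomorphism -/
structure Dat (h : ℤ → ℤ → ℤ → ℤ → ℝ) : Prop where
  hm : Hm h
  T : h 1 1 0 1 = 0
  P0 : h 1 0 1 1 = 0
  P3 : h 16 (-5) 3 (-14) = 0
  P5 : h 16 (-3) 5 (-14) = 0
  odd : ∀ a b c d : ℤ, a * d - b * (15 * c) = 1 → h a (-b) (-c) d = - h a b c d
  g : h 4 1 1 4 = 0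

theorem Dat.gens {h : ℤ → ℤ → ℤ → ℤ → ℝ} (D : Dat h) : Gens h := by
  have hm := D.hm
  have hT := D.T
  -- at the cusp `0`
  have g14 : h 1 (-1) 1 (-14) = 0 := by
    have := Hm.mul_T hm hT (-1) (a := 1) (b := 0) (c := 1) (d := 1) (by norm_num)
    norm_num at this
    rw [this, D.P0]
  have g1 : h (-1) 0 1 (-1) = 0 := by
    have h1 := Hm.inv hm (a := 1) (b := 0) (c := 1) (d := 1) (by norm_num)
    have h2 := Hm.neg hm (a := 1) (b := 0) (c := -1) (d := 1) (by norm_num)
    norm_num at h1 h2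
    rw [h2, h1, D.P0, neg_zero]
  -- the pair 4, 11
  have g4 : h (-4) 1 1 (-4) = 0 := by
    have h1 := D.odd 4 1 1 4 (by norm_num)
    have h2 := Hm.neg hm (a := 4) (b := -1) (c := -1) (d := 4) (by norm_num)
    norm_num at h1 h2
    rw [h2, h1, D.g, neg_zero]
  have g11 : h 4 (-3) 1 (-11) = 0 := by
    have h1 := Hm.mul_T hm hT (-1) (a := 4) (b := 1) (c := 1) (d := 4) (by norm_num)
    norm_num at h1
    rw [h1, D.g]
  -- the cusp 1/3
  have g4' : h 11 (-3) 1 (-4) = 0 := by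
    have h1 := Hm.T_mul hm hT 1 (a := -4) (b := 1) (c := 1) (d := -4) (by norm_num)
    norm_num at h1
    rw [h1, g4]
  have k19 : h (-19) 12 2 (-19) = 0 := by
    have h1 := hm (-19) 12 2 (-19) 11 (-3) 1 (-4) (by norm_num) (by norm_num)
    have h2 := Hm.T_mul hm hT 1 (a := -29) (b := 9) (c := 3) (d := -14) (by norm_num)
    norm_num at h1 h2
    rw [g4', add_zero] at h1
    rw [← h1, ← h2, D.P3]
  have k11 : h (-11) 4 2 (-11) = 0 := by
    have h1 := D.odd (-11) 4 2 (-11) (by norm_num)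
    have h2 := Hm.neg hm (a := -11) (b := -4) (c := -2) (d := -11) (by norm_num)
    have h3 := Hm.mul_T hm hT (-1) (a := 11) (b := 4) (c := 2) (d := 11) (by norm_num)
    have h4 := Hm.T_mul hm hT (-1) (a := 11) (b := -7) (c := 2) (d := -19) (by norm_num)
    norm_num at h1 h2 h3 h4
    linarith [k19]
  -- the four remaining ones
  have r7 : h 2 (-1) 1 (-7) = - h 7 (-1) 1 (-2) := by
    have h1 := Hm.inv hm (a := 7) (b := -1) (c := 1) (d := -2) (by norm_num)
    have h2 := Hm.neg hm (a := 2) (b := -1) (c := 1) (d := -7) (by norm_num)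
    norm_num at h1 h2
    linarith
  have r8 : h 13 (-7) 1 (-8) = h 7 (-1) 1 (-2) := by
    have h1 := D.odd 2 (-1) 1 (-7) (by norm_num)
    have h2 := Hm.neg hm (a := 2) (b := 1) (c := -1) (d := -7) (by norm_num)
    have h3 := Hm.mul_T hm hT (-1) (a := -2) (b := -1) (c := 1) (d := 7) (by norm_num)
    have h4 := Hm.T_mul hm hT 1 (a := -2) (b := 1) (c := 1) (d := -8) (by norm_num)
    norm_num at h1 h2 h3 h4
    linarith
  have r13 : h 8 (-7) 1 (-13) = - h 7 (-1) 1 (-2) := by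
    have h1 := Hm.inv hm (a := 13) (b := -7) (c := 1) (d := -8) (by norm_num)
    have h2 := Hm.neg hm (a := 8) (b := -7) (c := 1) (d := -13) (by norm_num)
    norm_num at h1 h2
    linarith
  have r2 : h 7 (-1) 1 (-2) = 0 := by
    -- the product around the cusp 1/5
    have h1 := hm (-11) 4 2 (-11) 7 (-1) 1 (-2) (by norm_num) (by norm_num)
    have h2 := Hm.T_mul hm hT 1 (a := -17) (b := 3) (c := 3) (d := -8) (by norm_num)
    have h3 := hm 13 (-7) 1 (-8) 28 (-5) 3 (-8) (by norm_num) (by norm_num)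
    have h4 := hm 4 (-3) 1 (-11) 49 (-9) 4 (-11) (by norm_num) (by norm_num)
    norm_num at h1 h2 h3 h4
    have h5 := D.P5
    linarith
  exact ⟨hm, hT, g1, r2, g4, by rw [r7, r2, neg_zero], by rw [r8, r2], g11,
    by rw [r13, r2, neg_zero], g14, k11, k19⟩

/-- an odd homomorphism with these zeros vanishes -/
theorem Dat.zero {h : ℤ → ℤ → ℤ → ℤ → ℝ} (D : Dat h) (a b c d : ℤ)
    (hd : a * d - b * (15 * c) = 1) : h a b c d = 0 := D.gens.zero _ a b c d rfl hd

end Pool.Agent.Run7.h741.P15
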