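import Pool.Agent.Run7.h741.P15.Ev
import Pool.Agent.Run7.h741.P15.Gen

/-!
# Values of `Fp` and the determination of the odd homomorphisms on `Γ₀(15)`
-/

set_option autoImplicit false

namespace Pool.Agent.Run7.h741.P15

open Finset
open Pool.Agent.N969.P15 (Fm cQ Fp)

/-- the forms separating `∞` and `x/15` -/
lemma form15 {x : ℤ} {q : ℤ × ℤ × ℤ} (hq : Fm q) (hA : 0 < q.1) (he : ev q x 15 < 0) :
    q.1 = 15 ∧ q.2.1 = -2 * x ∧ 15 * q.2.2 = x ^ 2 - 1 ∧ ((-x) % 15 = 4 ∨ (-x) % 15 = 11) := by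
  obtain ⟨b, hb, hb'⟩ := Fm_half hq
  obtain ⟨j, hj⟩ := hq.2.1
  have h4 := four_ev hq x 15
  have hD : q.2.1 ^ 2 - 4 * q.1 * q.2.2 = 4 := hq.1
  have h5 : q.1 * ev q x 15 < 0 := mul_neg_of_pos_of_neg hA he
  rw [hj, hb] at h4
  rw [hj] at h5
  have h6 : (j * x + b) ^ 2 < 1 := by nlinarith
  have h7 : j * x + b = 0 := by
    have : |j * x + b| < 1 := by
      apply abs_lt_of_sq_lt_sq _ (by norm_num) |> fun h => h
      simpa using h6
    exact Int.abs_lt_one_iff.1 this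
  have hbj : b = -(j * x) := by linarith
  rw [hb, hj, hbj] at hD
  have h8 : j * (j * x ^ 2 - 15 * q.2.2) = 1 := by linarith
  have hj1 : j = 1 := by
    rcases Int.eq_one_or_neg_one_of_mul_eq_one h8 with h | h
    · exact h
    · omega
  rw [hj1] at hj h8 hbj
  refine ⟨by linarith, by rw [hb, hbj]; ring, by linarith, ?_⟩
  rw [hbj, one_mul] at hb'
  exact hb'

lemma Fp15_zero {x : ℤ} (h1 : (-x) % 15 ≠ 4) (h2 : (-x) % 15 ≠ 11) : Fp x 15 = 0 := by
  rw [Fp_eq]
  refine finsum_eq_zero_of_forall_eq_zero fun q => ?_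
  unfold fs
  rw [if_neg]
  rintro ⟨hq, hA, he⟩
  obtain ⟨-, -, -, h | h⟩ := form15 hq hA he
  · exact h1 h
  · exact h2 h

lemma Fp_4_15 : Fp 4 15 = 1 := by
  rw [Fp_eq, finsum_eq_single _ (((15 : ℤ), (-8 : ℤ), (1 : ℤ)) : ℤ × ℤ × ℤ)]
  · unfold fs
    rw [if_pos ⟨⟨by norm_num, by norm_num, by norm_num⟩, by norm_num, by unfold ev; norm_num⟩]
    unfold cQ
    norm_num
  · intro q hq
    unfold fs
    rw [if_neg]
    rintro ⟨hF, hA, he⟩
    obtain ⟨e1, e2, e3, -⟩ := form15 hF hA he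
    apply hq
    ext
    · exact e1
    · simpa using e2
    · simp only; linarith

lemma Fp_11_30 : Fp 11 30 = 1 := by
  rw [Fp_eq, finsum_eq_single _ (((30 : ℤ), (-22 : ℤ), (4 : ℤ)) : ℤ × ℤ × ℤ)]
  · unfold fs
    rw [if_pos ⟨⟨by norm_num, by norm_num, by norm_num⟩, by norm_num, by unfold ev; norm_num⟩]
    unfold cQ
    norm_num
  · intro q hq
    unfold fs
    rw [if_neg]
    rintro ⟨hF, hA, he⟩
    apply hq
    obtain ⟨b, hb, hb'⟩ := Fm_half hF
    obtain ⟨j, hj⟩ := hF.2.1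
    have h4 := four_ev hF 11 30
    have hD : q.2.1 ^ 2 - 4 * q.1 * q.2.2 = 4 := hF.1
    have h5 : q.1 * ev q 11 30 < 0 := mul_neg_of_pos_of_neg hA he
    rw [hj, hb] at h4
    rw [hj] at h5
    have hj0 : 0 < j := by omega
    have h6 : (11 * j + 2 * b) ^ 2 < 2 ^ 2 := by nlinarith
    have h7 : |11 * j + 2 * b| < 2 := by
      have := abs_lt_of_sq_lt_sq h6 (by norm_num)
      exact this
    have h8 := abs_lt.1 h7
    rw [hb, hj] at hD
    obtain ⟨e, he'⟩ : ∃ e, e = 11 * j + 2 * b := ⟨_, rfl⟩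
    rw [← he'] at h8
    have h9 : e ^ 2 - 4 = j * (22 * e - 121 * j + 60 * q.2.2) := by
      rw [he']; linarith
    have h10 : e = -1 ∨ e = 0 ∨ e = 1 := by omega
    have h11 : j ≤ 4 := by
      rcases h10 with rfl | rfl | rfl
      · have : j ∣ 3 := ⟨-(22 * (-1) - 121 * j + 60 * q.2.2), by linarith⟩
        have := Int.le_of_dvd (by norm_num) this
        omega
      · have : j ∣ 4 := ⟨-(22 * 0 - 121 * j + 60 * q.2.2), by linarith⟩
        exact Int.le_of_dvd (by norm_num) this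
      · have : j ∣ 3 := ⟨-(22 * 1 - 121 * j + 60 * q.2.2), by linarith⟩
        have := Int.le_of_dvd (by norm_num) this
        omega
    have h12 : j = 1 ∨ j = 2 ∨ j = 3 ∨ j = 4 := by omega
    rcases h12 with rfl | rfl | rfl | rfl
    · exfalso; omega
    · rcases h10 with rfl | rfl | rfl
      · exfalso; omega
      · have hb2 : b = -11 := by omega
        subst hb2
        ext
        · linarith
        · linarith
        · simp only; omega
      · exfalso; omega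
    · exfalso; omega
    · rcases h10 with rfl | rfl | rfl
      · exfalso; omega
      · have hb2 : b = -22 := by omega
        subst hb2
        exfalso; omega
      · exfalso; omega

/-- the homomorphism -/
lemma cop {a b c d : ℤ} (h : a * d - b * (15 * c) = 1) : IsCoprime a 15 := ⟨d, -(b * c), by linarith⟩

lemma Ok_col {a b c d : ℤ} (h : a * d - b * (15 * c) = 1) : Ok a (15 * c) :=
  Ok_of_dvd (dvd_mul_right _ _) (cop h)

lemma Fp_mul {a b c d a' b' c' d' : ℤ} (h : a * d - b * (15 * c) = 1)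
    (h' : a' * d' - b' * (15 * c') = 1) :
    Fp (a * a' + b * (15 * c')) (15 * (c * a' + d * c')) = Fp a (15 * c) + Fp a' (15 * c') := by
  have h1 : Ok (a * a' + b * (15 * c')) (15 * c * a' + d * (15 * c')) := by
    refine Ok_of_dvd ⟨c * a' + d * c', by ring⟩ ?_
    have e1 := cop h
    have e2 := cop h'
    have e3 := e1.mul_left e2
    obtain ⟨u, v, huv⟩ := e3
    exact ⟨u, v - u * b * c', by linarith⟩
  have h2 := Fp_act h (dvd_mul_right _ _) (Ok_col h') h1 (Ok_col h)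
  rw [← h2]
  congr 1
  ring

lemma Fp_add {x M : ℤ} (m : ℤ) (h : Ok x M) (h' : Ok (x + m * M) M) : Fp (x + m * M) M = Fp x M := by
  have h1 := Fp_act (a := 1) (b := m) (c := 0) (d := 1) (by norm_num) (dvd_zero _) h
    (by rw [one_mul, zero_mul, zero_add, one_mul]; exact h') Ok_inf
  rw [Fp_inf, one_mul, zero_mul, zero_add, one_mul, zero_add] at h1
  exact h1

lemma Fp_11_15 : Fp 11 15 = -1 := by
  have h1 := Fp_add (x := -4) (M := 15) 1 (Ok_of_dvd dvd_rfl ⟨11, 3, by norm_num⟩)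
    (Ok_of_dvd dvd_rfl ⟨11, -8, by norm_num⟩)
  rw [show (-4 : ℤ) + 1 * 15 = 11 by norm_num, Fp_neg, Fp_4_15] at h1
  exact h1

lemma Fp_m19_30 : Fp (-19) 30 = 1 := by
  have h1 := Fp_add (x := 11) (M := 30) (-1) (Ok_of_dvd ⟨2, by norm_num⟩ ⟨11, -8, by norm_num⟩)
    (Ok_of_dvd ⟨2, by norm_num⟩ ⟨11, 14, by norm_num⟩)
  rw [show (11 : ℤ) + -1 * 30 = -19 by norm_num, Fp_11_30] at h1
  exact h1

lemma Fp_16_45 : Fp 16 45 = 0 := by
  have h1 := Fp_mul (a := -19) (b := 12) (c := 2) (d := -19) (a' := 11) (b' := -3) (c' := 1)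
    (d' := -4) (by norm_num) (by norm_num)
  norm_num at h1
  rw [Fp_m19_30, Fp_11_15] at h1
  have h2 := Fp_add (x := -29) (M := 45) 1 (Ok_of_dvd ⟨3, by norm_num⟩ ⟨1, 2, by norm_num⟩)
    (Ok_of_dvd ⟨3, by norm_num⟩ ⟨1, -1, by norm_num⟩)
  norm_num at h2
  rw [h2, h1]
  norm_num

lemma Fp_16_75 : Fp 16 75 = 0 := by
  have h1 := Fp_mul (a := 4) (b := -3) (c := 1) (d := -11) (a' := 49) (b' := -9) (c' := 4)
    (d' := -11) (by norm_num) (by norm_num)
  have h2 := Fp_mul (a := 13) (b := -7) (c := 1) (d := -8) (a' := 28) (b' := -5) (c' := 3)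
    (d' := -8) (by norm_num) (by norm_num)
  have h3 := Fp_mul (a := -11) (b := 4) (c := 2) (d := -11) (a' := 7) (b' := -1) (c' := 1)
    (d' := -2) (by norm_num) (by norm_num)
  have h4 := Fp_add (x := -17) (M := 45) 1 (Ok_of_dvd ⟨3, by norm_num⟩ ⟨7, 8, by norm_num⟩)
    (Ok_of_dvd ⟨3, by norm_num⟩ ⟨-8, 15, by norm_num⟩)
  norm_num at h1 h2 h3 h4
  have h5 : Fp (-11) 30 = -1 := by rw [Fp_neg, Fp_11_30]
  have h6 : Fp 7 15 = 0 := Fp15_zero (by norm_num) (by norm_num)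
  have h7 : Fp 13 15 = 0 := Fp15_zero (by norm_num) (by norm_num)
  rw [h1, h2, h4, h3, h5, h6, h7, Fp_4_15]
  norm_num

/-- the homomorphism `Fp` -/
noncomputable def ph (a _b c _d : ℤ) : ℝ := (Fp a (15 * c) : ℝ)

lemma ph_hm : Hm ph := by
  intro a b c d a' b' c' d' h h'
  unfold ph
  rw [Fp_mul h h']
  push_cast
  ring

/-- **the odd homomorphisms on `Γ₀(15)` are the multiples of `Fp`** -/
theorem hom_eq {h : ℤ → ℤ → ℤ → ℤ → ℝ} (hm : Hm h) (hT : h 1 1 0 1 = 0) (h0 : h 1 0 1 1 = 0)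
    (h3 : h 16 (-5) 3 (-14) = 0) (h5 : h 16 (-3) 5 (-14) = 0)
    (hodd : ∀ a b c d : ℤ, a * d - b * (15 * c) = 1 → h a (-b) (-c) d = - h a b c d)
    (a b c d : ℤ) (hd : a * d - b * (15 * c) = 1) : h a b c d = h 4 1 1 4 * (Fp a (15 * c) : ℝ) := by
  have D : Dat (fun a b c d => h a b c d - h 4 1 1 4 * ph a b c d) := by
    refine ⟨?_, ?_, ?_, ?_, ?_, ?_, ?_⟩
    · intro a b c d a' b' c' d' e e'
      beta_reduce
      rw [hm a b c d a' b' c' d' e e', ph_hm a b c d a' b' c' d' e e']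
      ring
    · rw [hT]; unfold ph; rw [mul_zero, Fp_inf]; simp
    · rw [h0]; unfold ph
      rw [mul_one, Fp15_zero (by norm_num) (by norm_num)]; simp
    · rw [h3]; unfold ph; norm_num; right; exact Fp_16_45
    · rw [h5]; unfold ph; norm_num; right; exact Fp_16_75
    · intro a b c d e
      rw [hodd a b c d e]
      unfold ph
      have e1 : Fp a (15 * -c) = - Fp a (15 * c) := by
        have := Fp_neg_neg (-a) (15 * c)
        rw [neg_neg, Fp_neg] at this
        rw [← this]; congr 1; ring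
      rw [e1]
      push_cast
      ring
    · unfold ph; norm_num [Fp_4_15]
  have := D.zero a b c d hd
  unfold ph at this
  linarith

lemma Fp_zero_one : Fp 0 1 = 0 := by
  rw [Fp_eq]
  refine finsum_eq_zero_of_forall_eq_zero fun q => ?_
  unfold fs
  rw [if_neg]
  rintro ⟨hq, hA, he⟩
  have hD : q.2.1 ^ 2 - 4 * q.1 * q.2.2 = 4 := hq.1
  obtain ⟨j, hj⟩ := hq.2.1
  unfold ev at he
  norm_num at he
  have hj1 : 1 ≤ j := by omega
  have h1 : 1 ≤ j * (-q.2.2) := by nlinarith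
  rw [hj] at hD
  nlinarith [sq_nonneg q.2.1]

/-- the value at a point of the class of the cusp `0` -/
theorem Fp_cusp0 {a b c d : ℤ} (hd : a * d - b * (15 * c) = 1) : Fp b d = Fp a (15 * c) := by
  have hcd : IsCoprime d 15 := ⟨a, -(b * c), by linarith⟩
  have h1 := Fp_act (x := 0) (M := 1) hd (dvd_mul_right _ _)
    (Ok_of_coprime isCoprime_one_left) (by
      rw [mul_zero, mul_zero, zero_add, zero_add, mul_one, mul_one]
      exact Ok_of_coprime hcd) (Ok_col hd)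
  rw [mul_zero, mul_zero, zero_add, zero_add, mul_one, mul_one, Fp_zero_one, add_zero] at h1
  exact h1

end Pool.Agent.Run7.h741.P15
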